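import Pool.Agent.H.MP_075e78_co.D

/-! Almost every ordered matching is well spread, hence has small Ramsey number against a triangle. -/

namespace Pool.Agent.H.MP_5faa0b_co
open Finset Classical Pool.Agent.H.MP_075e78_co

lemma ram2 {n w d m N : ℕ} (w0 : 0 < w) (m0 : 0 < m) (M : Fin n → Fin n) (i2 : ∀ i, M (M i) = i)
    (i1 : ∀ i, M i ≠ i)
    (gd : ∀ a b : ℕ, (univ.filter fun i : Fin n => i.val / w = a ∧ (M i).val / w = b).card ≤ d)
    (hm : 12 * d * n ≤ w * m) (hN : (n + w * ((n / w + 1) * (d + 1))) * m ≤ N) : Rm M N := by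
  intro G tf
  by_cases e : ∃ x, n ≤ (univ.filter fun y => Gᶜ.Adj x y).card
  · obtain ⟨x, hx⟩ := e
    obtain ⟨T, hT, hc⟩ := exists_subset_card_eq hx
    refine ⟨T.orderEmbOfFin hc, fun i => ?_⟩
    by_contra r
    refine tf {x, T.orderEmbOfFin hc i, T.orderEmbOfFin hc (M i)} (SimpleGraph.is3Clique_triple_iff.mpr
      ⟨(mem_filter.mp (hT (orderEmbOfFin_mem _ _ _))).2, (mem_filter.mp (hT (orderEmbOfFin_mem _ _ _))).2,
        fun e => i1 i ((T.orderEmbOfFin hc).injective e).symm, r⟩)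
  push Not at e
  obtain ⟨c, hc⟩ : ∃ c : Fin n → ℕ, ∀ i, c i =
      (univ.filter fun a : Fin n => (a.val / w = M a / w ∧ M a < a) ∧ a ≤ i).card := ⟨_, fun _ => rfl⟩
  have c1 : Monotone c := fun i j l => by
    rw [hc, hc]
    exact card_le_card fun a ha => mem_filter.mpr ⟨mem_univ _, (mem_filter.mp ha).2.1,
      (mem_filter.mp ha).2.2.trans l⟩
  have c2 : ∀ i, c i ≤ (n / w + 1) * d := fun i => by
    rw [hc]
    refine (card_le_card (t := (range (n / w + 1)).biUnion fun u => univ.filter fun i : Fin n =>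
      i.val / w = u ∧ (M i).val / w = u) fun a ha => ?_).trans
      ((card_biUnion_le_card_mul _ _ d fun u _ => gd u u).trans_eq (by rw [card_range]))
    exact mem_biUnion.mpr ⟨a / w, mem_range.mpr (Nat.lt_succ_of_le (Nat.div_le_div_right a.2.le)),
      mem_filter.mpr ⟨mem_univ _, rfl, (mem_filter.mp ha).2.1.1.symm⟩⟩
  have c4 : ∀ i, i.val / w = M i / w → M i < i → c (M i) < c i := fun i h l => by
    rw [hc, hc]
    refine card_lt_card ⟨fun a ha => mem_filter.mpr ⟨mem_univ _, (mem_filter.mp ha).2.1,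
      (mem_filter.mp ha).2.2.trans l.le⟩, fun s => ?_⟩
    exact (mem_filter.mp (s (mem_filter.mpr ⟨mem_univ i, ⟨h, l⟩, le_rfl⟩))).2.2.not_gt l
  have c3 : ∀ i, i.val / w = M i / w → c i ≠ c (M i) := fun i h => by
    rcases lt_or_gt_of_ne (i1 i) with l | l
    · exact (c4 i h l).ne'
    · have := c4 (M i) (by rw [i2, h]) (by rwa [i2])
      rw [i2] at this
      exact this.ne
  have dv : ∀ i j : Fin n, i.val / w + c i = j.val / w + c j → i.val / w = j / w := fun i j h => by
    rcases le_total i j with l | l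
    · have := c1 l
      have := Nat.div_le_div_right (c := w) (show i.val ≤ j from l)
      omega
    · have := c1 l
      have := Nat.div_le_div_right (c := w) (show j.val ≤ i from l)
      omega
  obtain ⟨f, f1, f2⟩ := core (K := (n / w + 1) * (d + 1)) (d := d) w0 m0 M i2 (fun i => ⟨i / w + c i, by
      have := c2 i
      have := Nat.div_le_div_right (c := w) i.2.le
      rw [mul_add_one]
      omega⟩)
    (fun i j l => Nat.add_le_add (Nat.div_le_div_right l) (c1 l))
    (fun i h => by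
      have h := congrArg Fin.val h
      have := dv _ _ h
      have := c3 i this
      simp only at h
      omega)
    (fun i j h => by
      have t := dv _ _ (congrArg Fin.val h)
      have a := Nat.div_add_mod i w
      have b := Nat.div_add_mod j w
      have := Nat.mod_lt j w0
      rw [t] at a
      omega)
    (fun u v => by
      rcases (univ.filter fun i : Fin n => (⟨i / w + c i, _⟩ : Fin ((n / w + 1) * (d + 1))) = u ∧
        (⟨M i / w + c (M i), _⟩ : Fin ((n / w + 1) * (d + 1))) = v).eq_empty_or_nonempty with h | ⟨a, ha⟩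
      · rw [h]
        simp
      refine le_trans (card_le_card fun i hi => ?_) (gd (a / w) (M a / w))
      have ha := (mem_filter.mp ha).2
      have hi := (mem_filter.mp hi).2
      exact mem_filter.mpr ⟨mem_univ _, dv _ _ (congrArg Fin.val (hi.1.trans ha.1.symm)),
        dv _ _ (congrArg Fin.val (hi.2.trans ha.2.symm))⟩) hm hN
    (fun x y => ∃ hx hy, G.Adj ⟨x, hx⟩ ⟨y, hy⟩) (fun x y ⟨a, b, h⟩ => ⟨b, a, h.symm⟩) fun x hx => by
      refine le_trans (card_le_card (t := (univ.filter fun y => Gᶜ.Adj ⟨x, hx⟩ y).image Fin.val)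
        fun y hy => ?_) (card_image_le.trans (e _).le)
      simp only [mem_filter, mem_range] at hy
      exact mem_image.mpr ⟨⟨y, hy.1⟩, mem_filter.mpr ⟨mem_univ _, fun h => hy.2.1 (congrArg Fin.val h).symm,
        fun h => hy.2.2 ⟨_, _, h⟩⟩, rfl⟩
  exact ⟨OrderEmbedding.ofStrictMono (fun i => ⟨f i, (f2 i).1⟩) fun i j l => f1 l, fun i => (f2 i).2.2.2⟩

/-- matchings with at least `j` edges from `I` to `J` -/
noncomputable def B (n : ℕ) (I J : Finset (Fin n)) (j : ℕ) : Finset (Fin n → Fin n) :=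
  univ.filter fun M => IsMatching M ∧ j ≤ (I.filter fun i => M i ∈ J).card

lemma switch2 {n j : ℕ} (I J : Finset (Fin n)) :
    (B n I J (j + 4)).card * (n - 2) ≤ (B n I J j ×ˢ I ×ˢ J).card * 1 := by
  refine card_mul_le_card_mul (fun M t => M = Equiv.swap t.2.2 (t.1 t.2.1) ∘ t.1 ∘ Equiv.swap t.2.2 (t.1 t.2.1))
    (fun M hM => ?_) fun t _ => card_le_one.mpr fun a ha b hb => by
      rw [mem_bipartiteBelow] at ha hb
      exact ha.2.trans hb.2.symm
  obtain ⟨i0, hX⟩ := (mem_filter.mp hM).2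
  have i2 := fun i => (i0 i).1
  have i1 := fun i => (i0 i).2
  obtain ⟨a, ha⟩ := card_pos.mp ((Nat.succ_pos _).trans_le hX)
  rw [mem_filter] at ha
  have inj : ∀ x y, M x = M y → x = y := fun x y h => by rw [← i2 x, h, i2]
  have h2 : n - 2 ≤ ({a, M a}ᶜ : Finset (Fin n)).card := by
    have := card_le_two (a := a) (b := M a)
    rw [card_compl, Fintype.card_fin]
    omega
  refine h2.trans (card_le_card_of_injOn
    (fun x => (Equiv.swap (M a) x ∘ M ∘ Equiv.swap (M a) x, a, M a)) (fun x hx => ?_) fun x hx y hy e => ?_)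
  · simp only [coe_compl, coe_insert, coe_singleton, Set.mem_compl_iff, Set.mem_insert_iff,
      Set.mem_singleton_iff, not_or] at hx
    obtain ⟨x1, x2⟩ := hx
    have ea : Equiv.swap (M a) x (M (Equiv.swap (M a) x a)) = x := by
      rw [Equiv.swap_apply_of_ne_of_ne (i1 a).symm (Ne.symm x1), Equiv.swap_apply_left]
    have ot : ∀ i, i ≠ a → i ≠ M a → i ≠ x → i ≠ M x → Equiv.swap (M a) x (M (Equiv.swap (M a) x i)) = M i :=
      fun i a1 a2 a3 a4 => by
        rw [Equiv.swap_apply_of_ne_of_ne a2 a3, Equiv.swap_apply_of_ne_of_ne (fun h => a1 (inj _ _ h))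
          fun h => a4 (by rw [← h, i2])]
    refine (mem_bipartiteAbove _).mpr ⟨mem_product.mpr ⟨mem_filter.mpr ⟨mem_univ _,
      fun i => ⟨by simp [i2], fun h => ?_⟩, ?_⟩, mem_product.mpr ha⟩, ?_⟩
    · exact i1 (Equiv.swap (M a) x i) (by simpa using congrArg (Equiv.swap (M a) x) h)
    · have : I.filter (fun i => M i ∈ J) ⊆ {a, M a, x, M x} ∪ I.filter fun i =>
          (Equiv.swap (M a) x ∘ M ∘ Equiv.swap (M a) x) i ∈ J := fun i hi => by
        by_cases g : i ∈ ({a, M a, x, M x} : Finset _)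
        · exact mem_union_left _ g
        simp only [mem_insert, mem_singleton, not_or] at g
        refine mem_union_right _ (mem_filter.mpr ⟨(mem_filter.mp hi).1, ?_⟩)
        simp only [Function.comp, ot i g.1 g.2.1 g.2.2.1 g.2.2.2]
        exact (mem_filter.mp hi).2
      have := (card_le_card this).trans (card_union_le _ _)
      have := card_le_four (a := a) (b := M a) (c := x) (d := M x)
      dsimp only
      omega
    · funext i
      simp [ea]
  · simp only [coe_compl, coe_insert, coe_singleton, Set.mem_compl_iff, Set.mem_insert_iff,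
      Set.mem_singleton_iff, not_or] at hx hy
    have := congrFun (congrArg Prod.fst e) a
    simpa [Equiv.swap_apply_of_ne_of_ne (i1 a).symm (Ne.symm hx.1),
      Equiv.swap_apply_of_ne_of_ne (i1 a).symm (Ne.symm hy.1)] using this

lemma iter2 {n : ℕ} (I J : Finset (Fin n)) (q0 : 2 < n) (h : 4 * (I.card * J.card) ≤ n - 2) (t : ℕ) :
    4 ^ t * (B n I J (4 * t)).card ≤ (B n ∅ ∅ 0).card := by
  induction t with
  | zero =>
    rw [pow_zero, one_mul]
    exact card_le_card fun M hM => mem_filter.mpr ⟨mem_univ _, (mem_filter.mp hM).2.1, Nat.zero_le _⟩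
  | succ t ih =>
    have a := switch2 (j := 4 * t) I J
    rw [card_product, card_product, mul_one] at a
    have b : 4 * (B n I J (4 * t + 4)).card ≤ (B n I J (4 * t)).card :=
      Nat.le_of_mul_le_mul_right (by
        have := Nat.mul_le_mul_left (B n I J (4 * t)).card h
        nlinarith) (show 0 < n - 2 by omega)
    have := Nat.mul_le_mul_left (4 ^ t) b
    rw [pow_succ, mul_add_one]
    nlinarith

/-- the bound -/
def bd2 (n : ℕ) : ℕ := (5 * (4 * (2 * (Nat.log 2 n + 1))) * n) * (768 * (4 * (2 * (Nat.log 2 n + 1))) * n.sqrt)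

lemma few2 {n : ℕ} (hn : 16 ≤ n) :
    n ^ 2 * ((B n ∅ ∅ 0).filter fun M => ¬Rm M (bd2 n)).card ≤ (B n ∅ ∅ 0).card := by
  have s4 : 4 ≤ n.sqrt := Nat.le_sqrt.mpr (by omega)
  have s1 := Nat.sqrt_le n
  have s2 := Nat.lt_succ_sqrt n
  obtain ⟨w, hw⟩ : ∃ w, w = n.sqrt / 4 := ⟨_, rfl⟩
  have w0 : 0 < w := by omega
  have w1 : 16 * (w * w) ≤ n := by nlinarith [Nat.mul_self_le_mul_self (show 4 * w ≤ n.sqrt by omega)]
  have w2 : n ≤ 64 * (w * w) := by
    nlinarith [Nat.mul_self_le_mul_self (show n.sqrt.succ ≤ 8 * w by omega)]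
  obtain ⟨t, ht⟩ : ∃ t, t = 2 * (Nat.log 2 n + 1) := ⟨_, rfl⟩
  have t0 : 0 < t := by omega
  let I : Fin n → Finset (Fin n) := fun a => univ.filter fun i => i.val / w = a / w
  have c : ((B n ∅ ∅ 0).filter fun M => ¬Rm M (bd2 n)) ⊆
      univ.biUnion fun p : Fin n × Fin n => B n (I p.1) (I p.2) (4 * t) := fun M hM => by
    obtain ⟨hM, r⟩ := mem_filter.mp hM
    have hM := (mem_filter.mp hM).2.1
    by_contra g
    refine r (ram2 (d := 4 * t) (m := 768 * (4 * t) * w) w0 (by positivity) M (fun i => (hM i).1)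
      (fun i => (hM i).2) (fun a b => ?_) (by nlinarith [Nat.mul_le_mul_left (4 * t) w2])
      (Nat.mul_le_mul ?_ (by rw [← ht]; exact Nat.mul_le_mul_left _ (by omega))))
    · by_contra! h
      obtain ⟨x, hx⟩ := card_pos.mp ((Nat.zero_le _).trans_lt h)
      have hx := (mem_filter.mp hx).2
      refine g (mem_biUnion.mpr ⟨(x, M x), mem_univ _, mem_filter.mpr ⟨mem_univ _, hM, h.le.trans
        (card_le_card fun i hi => ?_)⟩⟩)
      simpa [I, hx.1, hx.2] using hi
    · have := Nat.mul_div_le n w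
      have a : w * (n / w + 1) ≤ 2 * n := by nlinarith
      have := Nat.mul_le_mul_right (4 * t + 1) a
      rw [← ht, ← mul_assoc]
      nlinarith
  have c2 : 4 ^ t * ((B n ∅ ∅ 0).filter fun M => ¬Rm M (bd2 n)).card ≤ n ^ 2 * (B n ∅ ∅ 0).card := by
    refine (Nat.mul_le_mul_left _ ((card_le_card c).trans card_biUnion_le)).trans ?_
    rw [mul_sum]
    refine (sum_le_card_nsmul _ _ _ fun p _ => iter2 _ _ (by omega) ?_ t).trans_eq (by simp [sq])
    have := Nat.mul_le_mul (blk (n := n) w0 (p.1 / w)) (blk (n := n) w0 (p.2 / w))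
    simp only [I]
    omega
  have c3 : n ^ 2 * n ^ 2 ≤ 4 ^ t := by
    refine (pow_add n 2 2).symm.trans_le ((Nat.pow_le_pow_left
      (Nat.lt_pow_succ_log_self one_lt_two n).le _).trans_eq ?_)
    rw [ht, show 4 = 2 ^ 2 from rfl, ← pow_mul, ← pow_mul]
    congr 1
    omega
  refine Nat.le_of_mul_le_mul_left ?_ (show 0 < n ^ 2 from pow_pos (by omega) 2)
  rw [← mul_assoc]
  exact (Nat.mul_le_mul_right _ c3).trans c2

lemma bd2_le {n : ℕ} (hn : 2 ≤ n) :
    (bd2 n : ℝ) ≤ 5 * 768 * 32 ^ 2 * (n : ℝ) ^ (3 / 2 : ℝ) * Real.log n ^ 2 := by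
  have n0 : (0 : ℝ) < n := by positivity
  have a : (n.sqrt : ℝ) ≤ (n : ℝ) ^ (1 / 2 : ℝ) := by
    rw [← Real.sqrt_eq_rpow]
    exact Real.nat_sqrt_le_real_sqrt
  have b : (1 : ℝ) ≤ Nat.log 2 n := by exact_mod_cast Nat.log_pos one_lt_two hn
  have c : (Nat.log 2 n : ℝ) ≤ 2 * Real.log n := by
    have h : (2 : ℝ) ^ Nat.log 2 n ≤ n := by exact_mod_cast Nat.pow_log_le_self 2 (by omega)
    have := Real.log_le_log (by positivity) h
    rw [Real.log_pow] at this
    nlinarith [Real.log_two_gt_d9]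
  have d : (4 * (2 * (Nat.log 2 n + 1)) : ℝ) ≤ 32 * Real.log n := by linarith
  rw [show (3 / 2 : ℝ) = 1 + 1 / 2 by norm_num, Real.rpow_add n0, Real.rpow_one, bd2]
  push_cast
  calc _ ≤ 5 * (32 * Real.log n) * (n : ℝ) * (768 * (32 * Real.log n) * (n : ℝ) ^ (1 / 2 : ℝ)) := by
        gcongr
    _ = _ := by ring

end Pool.Agent.H.MP_5faa0b_co
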